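import Mathlib

set_option autoImplicit false

open Set

namespace Pool.Agent.Results.MP_26bcd4_gt.OuterUnbounded

/-- `U` is an outer illuminating set of `K`. -/
def OuterIllum {d : ℕ} (K U : Set (EuclideanSpace ℝ (Fin d))) : Prop :=
  (∀ u ∈ U, ‖u‖ = 1) ∧
    ∀ x ∈ frontier K, ∃ u ∈ U, ∃ ε : ℝ, 0 < ε ∧ ε < 1 ∧ x + ε • u ∈ interior K

/-- `U` is a primitive outer illuminating set of `K`. -/
def PrimitiveOuter {d : ℕ} (K U : Set (EuclideanSpace ℝ (Fin d))) : Prop :=
  OuterIllum K U ∧ ∀ U' : Set (EuclideanSpace ℝ (Fin d)), U' ⊂ U → ¬ OuterIllum K U'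

section General
variable {E : Type} [NormedAddCommGroup E] [NormedSpace ℝ E]

lemma strict_of_interior (K : Set E) (f : E →ₗ[ℝ] ℝ) (a : ℝ) (hK : ∀ x ∈ K, f x ≤ a) (g : E)
    (hg : 0 < f g) (z : E) (hz : z ∈ interior K) : f z < a := by
  have hc : Continuous fun s : ℝ => z + s • g := by fun_prop
  have h0 : (fun s : ℝ => z + s • g) ⁻¹' interior K ∈ nhds (0 : ℝ) :=
    (isOpen_interior.preimage hc).mem_nhds (by simpa using hz)
  obtain ⟨r, hr, hsub⟩ := Metric.mem_nhds_iff.1 h0
  have h1 : z + (r / 2) • g ∈ interior K := hsub (by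
    simp only [Metric.mem_ball, dist_zero_right, Real.norm_eq_abs]
    rw [abs_of_pos (by linarith)]; linarith)
  have h2 := hK _ (interior_subset h1)
  simp only [map_add, map_smul, smul_eq_mul] at h2
  have : 0 < r / 2 * f g := by positivity
  linarith

lemma ill_normalize (K : Set E) (hK : Convex ℝ K) (x u : E) (hx : x ∈ K) (hu : u ≠ 0) (s : ℝ)
    (hs : 0 < s) (h : x + s • u ∈ interior K) :
    ∃ ε : ℝ, 0 < ε ∧ ε < 1 ∧ x + ε • (‖u‖⁻¹ • u) ∈ interior K := by
  have hn : 0 < ‖u‖ := norm_pos_iff.2 hu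
  set ε := min (s * ‖u‖) (1 / 2) with hε
  have hε0 : 0 < ε := lt_min (by positivity) (by norm_num)
  have hε1 : ε ≤ s * ‖u‖ := min_le_left _ _
  refine ⟨ε, hε0, lt_of_le_of_lt (min_le_right _ _) (by norm_num), ?_⟩
  have hl : ε / (s * ‖u‖) ≤ 1 := by rw [div_le_one (by positivity)]; exact hε1
  have := hK.combo_interior_self_mem_interior h hx (a := ε / (s * ‖u‖))
    (b := 1 - ε / (s * ‖u‖)) (by positivity) (by linarith) (by ring)
  convert this using 1
  rw [smul_add, smul_smul, smul_smul, sub_smul, one_smul]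
  have : ε / (s * ‖u‖) * s = ε * ‖u‖⁻¹ := by field_simp
  rw [this]; abel

lemma ill_hull (V U : Set E) (h : ∀ p ∈ V, ∃ u ∈ U, ∃ s : ℝ, 0 < s ∧
    p + s • u ∈ interior (convexHull ℝ V)) :
    ∀ x ∈ convexHull ℝ V, ∃ u ∈ U, ∃ s : ℝ, 0 < s ∧ x + s • u ∈ interior (convexHull ℝ V) := by
  have hK := convex_convexHull ℝ V
  have : convexHull ℝ V ⊆ {x | x ∈ convexHull ℝ V ∧ ∃ u ∈ U, ∃ s : ℝ, 0 < s ∧
      x + s • u ∈ interior (convexHull ℝ V)} := by
    refine convexHull_min (fun p hp => ⟨subset_convexHull ℝ V hp, h p hp⟩) ?_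
    rintro x ⟨hx, u, hu, s, hs, hxu⟩ y ⟨hy, v, hv, r, hr, hyv⟩ a b ha hb hab
    refine ⟨hK hx hy ha hb hab, ?_⟩
    rcases ha.eq_or_lt with rfl | ha'
    · refine ⟨v, hv, r, hr, ?_⟩
      have : b = 1 := by linarith
      simpa [this] using hyv
    · refine ⟨u, hu, a * s, by positivity, ?_⟩
      have := hK.combo_interior_self_mem_interior hxu hy ha' hb hab
      convert this using 1
      rw [smul_add, smul_smul]; abel
  exact fun x hx => (this hx).2

end General

section Concrete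
variable (m N : ℕ)

abbrev EE := EuclideanSpace ℝ (Fin (m + 3))

noncomputable def e (i : Fin (m + 3)) : EE m := EuclideanSpace.single i 1

noncomputable def base : Fin (N + 3) ⊕ Fin m → EE m
  | Sum.inl k => ((k : ℕ) : ℝ) • e m 0 + ((k : ℕ) : ℝ) ^ 2 • e m 1 + e m 2
  | Sum.inr l => e m 1 + e m 2 + e m (l.addNat 3)

noncomputable def VV : Set (EE m) := insert 0 (range (base m N))

noncomputable def co (i : Fin (m + 3)) : EE m →ₗ[ℝ] ℝ := EuclideanSpace.projₗ i

lemma co_e (i j : Fin (m + 3)) : co m i (e m j) = if i = j then 1 else 0 := by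
  simp [co, e]

lemma ne_extra (l : Fin m) (i : Fin (m + 3)) (hi : (i : ℕ) < 3) :
    i ≠ l.addNat 3 := by
  intro h
  have := congrArg Fin.val h
  simp at this; omega

lemma f01 : (0 : Fin (m + 3)) ≠ 1 := by simp [Fin.ext_iff]
lemma f02 : (0 : Fin (m + 3)) ≠ 2 := by
  intro h; have := congrArg Fin.val h; simp [Nat.mod_eq_of_lt] at this
lemma f12 : (1 : Fin (m + 3)) ≠ 2 := by
  intro h; have := congrArg Fin.val h; simp [Nat.mod_eq_of_lt] at this
lemma v0 : (((0 : Fin (m + 3)) : ℕ)) < 3 := by simp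
lemma v1 : (((1 : Fin (m + 3)) : ℕ)) < 3 := by simp
lemma v2 : (((2 : Fin (m + 3)) : ℕ)) < 3 := by simp [Nat.mod_eq_of_lt]

lemma co2_base (j : Fin (N + 3) ⊕ Fin m) : co m 2 (base m N j) = 1 := by
  cases j with
  | inl k => simp [base, co_e, (f02 m).symm, (f12 m).symm]
  | inr l => simp [base, co_e, (f12 m).symm, ne_extra m l 2 (v2 m)]

noncomputable def nu (i : ℕ) : EE m →ₗ[ℝ] ℝ :=
  (2 * (i : ℝ)) • co m 0 - co m 1 - ((i : ℝ) ^ 2) • co m 2

lemma nu_inl (i : ℕ) (k : Fin (N + 3)) :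
    nu m i (base m N (Sum.inl k)) = -(((k : ℕ) : ℝ) - i) ^ 2 := by
  simp [nu, base, co_e, f01 m, f02 m, f12 m, (f01 m).symm, (f02 m).symm, (f12 m).symm]
  ring

lemma nu_inr (i : ℕ) (l : Fin m) : nu m i (base m N (Sum.inr l)) = -1 - (i : ℝ) ^ 2 := by
  simp [nu, base, co_e, f01 m, f02 m, f12 m, (f01 m).symm, (f02 m).symm, (f12 m).symm,
    ne_extra m l 0 (v0 m), ne_extra m l 1 (v1 m), ne_extra m l 2 (v2 m)]

lemma nu_le (i : Fin (N + 3)) (j : Fin (N + 3) ⊕ Fin m) (h : j ≠ Sum.inl i) :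
    nu m i (base m N j) ≤ -1 := by
  cases j with
  | inl k =>
    rw [nu_inl]
    have hk : (k : ℕ) ≠ i := fun h' => h (by rw [Fin.ext h'])
    have : (1 : ℤ) ≤ (((k : ℕ) : ℤ) - (i : ℕ)) ^ 2 := by
      have h0 : ((k : ℕ) : ℤ) - (i : ℕ) ≠ 0 := by omega
      have := sq_pos_of_ne_zero h0
      omega
    have h2 : (1 : ℝ) ≤ (((k : ℕ) : ℝ) - (i : ℕ)) ^ 2 := by exact_mod_cast this
    linarith
  | inr l => rw [nu_inr]; nlinarith [sq_nonneg ((i : ℕ) : ℝ)]

lemma span_top : Submodule.span ℝ (range (base m N)) = ⊤ := by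
  set S := Submodule.span ℝ (range (base m N))
  have hb : ∀ j, base m N j ∈ S := fun j => Submodule.subset_span ⟨j, rfl⟩
  have h0 := hb (Sum.inl ⟨0, by omega⟩)
  have h1 := hb (Sum.inl ⟨1, by omega⟩)
  have h2 := hb (Sum.inl ⟨2, by omega⟩)
  simp only [base] at h0 h1 h2
  have e2 : e m 2 ∈ S := by simpa using h0
  have e1 : e m 1 ∈ S := by
    have := S.smul_mem (1 / 2 : ℝ) (S.add_mem (S.sub_mem h2 (S.smul_mem 2 h1)) e2)
    convert this using 1
    push_cast
    module
  have e0 : e m 0 ∈ S := by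
    have := S.sub_mem (S.sub_mem h1 e1) e2
    convert this using 1
    push_cast
    module
  have ei : ∀ i, e m i ∈ S := by
    intro i
    by_cases hi : (i : ℕ) < 3
    · have : i = 0 ∨ i = 1 ∨ i = 2 := by
        have a0 : ((0 : Fin (m + 3)) : ℕ) = 0 := by simp
        have a1 : ((1 : Fin (m + 3)) : ℕ) = 1 := by simp
        have a2 : ((2 : Fin (m + 3)) : ℕ) = 2 := by simp [Nat.mod_eq_of_lt]
        simp only [Fin.ext_iff, a0, a1, a2]
        omega
      rcases this with rfl | rfl | rfl <;> assumption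
    · have hi3 : (i : ℕ) - 3 < m := by have := i.2; omega
      have h3 := hb (Sum.inr ⟨i - 3, hi3⟩)
      simp only [base] at h3
      have := S.sub_mem (S.sub_mem h3 e1) e2
      convert this using 1
      have : (⟨i - 3, hi3⟩ : Fin m).addNat 3 = i := by
        ext; simp; omega
      rw [this]; abel
  rw [eq_top_iff, ← (EuclideanSpace.basisFun (Fin (m + 3)) ℝ).toBasis.span_eq, Submodule.span_le]
  rintro _ ⟨i, rfl⟩
  simpa [e] using ei i

lemma interior_nonempty : (interior (convexHull ℝ (VV m N))).Nonempty := by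
  rw [interior_convexHull_nonempty_iff_affineSpan_eq_top]
  apply AffineSubspace.coe_injective
  rw [VV, affineSpan_insert_zero, span_top]
  simp

lemma hull_le (f : EE m →ₗ[ℝ] ℝ) (a : ℝ) (ha : 0 ≤ a) (h : ∀ j, f (base m N j) ≤ a) :
    ∀ x ∈ convexHull ℝ (VV m N), f x ≤ a := by
  intro x hx
  refine convexHull_min (t := {x | f x ≤ a}) ?_ (convex_halfSpace_le f.isLinear a) hx
  rintro _ (rfl | ⟨j, rfl⟩)
  · simpa using ha
  · exact h j

end Concrete

theorem result : ∀ d : ℕ, 3 ≤ d → ∀ N : ℕ, ∃ K : Set (EuclideanSpace ℝ (Fin d)),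
    IsCompact K ∧ Convex ℝ K ∧ (interior K).Nonempty ∧
      ∃ U : Finset (EuclideanSpace ℝ (Fin d)), PrimitiveOuter K U ∧ N ≤ U.card := by
  classical
  intro d hd N
  obtain ⟨m, rfl⟩ : ∃ m, d = m + 3 := ⟨d - 3, by omega⟩
  set K := convexHull ℝ (VV m N) with hKdef
  have hVfin : (VV m N).Finite := (finite_range _).insert _
  have hKc : IsCompact K := hVfin.isCompact_convexHull ℝ
  have hK : Convex ℝ K := convex_convexHull ℝ _
  obtain ⟨c, hc⟩ := interior_nonempty m N
  have h0K : (0 : EE m) ∈ K := subset_convexHull ℝ _ (mem_insert _ _)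
  have hbK : ∀ j, base m N j ∈ K := fun j => subset_convexHull ℝ _ (Or.inr ⟨j, rfl⟩)
  refine ⟨K, hKc, hK, ⟨c, hc⟩, ?_⟩
  have ht1 : ∀ z ∈ interior K, co m 2 z < 1 :=
    strict_of_interior K (co m 2) 1 (hull_le m N _ _ zero_le_one fun j => (co2_base m N j).le)
      (e m 2) (by simp [co_e])
  have ht0 : 0 < co m 2 c := by
    have := strict_of_interior K (-co m 2) 0
      (hull_le m N _ _ le_rfl fun j => by simp [co2_base]) (-e m 2) (by simp [co_e]) c hc
    simpa using this
  have hnu : ∀ i : Fin (N + 3), ∀ z ∈ interior K, nu m i z < 0 := by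
    intro i
    refine strict_of_interior K (nu m i) 0 (hull_le m N _ _ le_rfl fun j => ?_) (-e m 1) ?_
    · by_cases hj : j = Sum.inl i
      · rw [hj, nu_inl]; simp
      · linarith [nu_le m N i j hj]
    · simp [nu, co_e, f01 m, (f12 m).symm]
  set δ : ℝ := 1 / (1 + ∑ i : Fin (N + 3), |nu m i c|) with hδ
  have hS : 0 ≤ ∑ i : Fin (N + 3), |nu m i c| := Finset.sum_nonneg fun _ _ => abs_nonneg _
  have hδ0 : 0 < δ := by positivity
  have hδ1 : δ ≤ 1 := by rw [hδ, div_le_one (by linarith)]; linarith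
  have hδ2 : ∀ i : Fin (N + 3), -1 ≤ δ * nu m i c := by
    intro i
    have h1 : |nu m i c| ≤ ∑ i : Fin (N + 3), |nu m i c| :=
      Finset.single_le_sum (f := fun i : Fin (N + 3) => |nu m i c|) (fun _ _ => abs_nonneg _)
        (Finset.mem_univ i)
    have h2 := neg_abs_le (nu m i c)
    rw [hδ, one_div, ← div_eq_inv_mul, le_div_iff₀ (by linarith)]
    linarith
  have hδc : δ • c ∈ interior K := by
    have := hK.combo_interior_self_mem_interior hc h0K hδ0 (b := 1 - δ) (by linarith) (by ring)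
    simpa using this
  let raw : Option (Fin (N + 3) ⊕ Fin m) → EE m := fun o =>
    match o with
    | none => c
    | some j => δ • c - base m N j
  have hraw : ∀ o, raw o ≠ 0 := by
    rintro (_ | j) h
    · have h' : c = 0 := h
      rw [h'] at ht0; simp at ht0
    · have h' : δ • c - base m N j = 0 := h
      have h2 := congrArg (co m 2) h'
      have h3 := ht1 _ hδc
      rw [map_sub, co2_base, map_zero] at h2
      linarith
  let dir : Option (Fin (N + 3) ⊕ Fin m) → EE m := fun o => ‖raw o‖⁻¹ • raw o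
  have hall := ill_hull (VV m N) (range raw) (by
    rintro _ (rfl | ⟨j, rfl⟩)
    · exact ⟨c, ⟨none, rfl⟩, 1, one_pos, by simpa using hc⟩
    · exact ⟨raw (some j), ⟨some j, rfl⟩, 1, one_pos, by simpa [raw] using hδc⟩)
  set U0 : Finset (EE m) := Finset.univ.image dir with hU0
  have hU0ill : OuterIllum K U0 := by
    constructor
    · intro u hu
      simp only [hU0, Finset.coe_image, Finset.coe_univ, image_univ, mem_range] at hu
      obtain ⟨o, rfl⟩ := hu
      simp only [dir, norm_smul, norm_inv, norm_norm]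
      exact inv_mul_cancel₀ (norm_ne_zero_iff.2 (hraw o))
    · intro x hx
      have hxK : x ∈ K := hKc.isClosed.frontier_subset hx
      obtain ⟨_, ⟨o, rfl⟩, s, hs, h⟩ := hall x hxK
      exact ⟨dir o, by simp [hU0], ill_normalize K hK x _ hxK (hraw o) s hs h⟩
  have hpriv : ∀ (i : Fin (N + 3)) (o), o ≠ some (Sum.inl i) → ∀ ε : ℝ, 0 < ε →
      base m N (Sum.inl i) + ε • dir o ∉ interior K := by
    intro i o ho ε hε hin
    have hn : 0 < ‖raw o‖⁻¹ := inv_pos.2 (norm_pos_iff.2 (hraw o))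
    cases o with
    | none =>
      have h1 := ht1 _ hin
      simp only [dir, map_add, map_smul, co2_base, smul_eq_mul] at h1
      have : 0 < ε * (‖raw none‖⁻¹ * co m 2 (raw none)) := mul_pos hε (mul_pos hn ht0)
      linarith
    | some j =>
      have hj : j ≠ Sum.inl i := fun h => ho (by rw [h])
      have h1 := hnu i _ hin
      simp only [dir, map_add, map_smul, nu_inl, smul_eq_mul] at h1
      have h2 : 0 ≤ nu m i (raw (some j)) := by
        simp only [raw, map_sub, map_smul, smul_eq_mul]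
        linarith [hδ2 i, nu_le m N i j hj]
      have : 0 ≤ ε * (‖raw (some j)‖⁻¹ * nu m i (raw (some j))) := by positivity
      simp at h1
      linarith
  have hfront : ∀ j, base m N j ∈ frontier K := fun j =>
    ⟨subset_closure (hbK j), fun h => by have := ht1 _ h; rw [co2_base] at this; linarith⟩
  clear_value U0
  clear_value dir
  obtain ⟨U, hU, hmin⟩ := Finset.exists_minimal
    (s := U0.powerset.filter fun U : Finset (EE m) => OuterIllum K U) ⟨U0, by simp [hU0ill]⟩
  simp only [Finset.mem_filter, Finset.mem_powerset] at hU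
  refine ⟨U, ⟨hU.2, fun U' hU' hill => ?_⟩, ?_⟩
  · have hfin : U'.Finite := U.finite_toSet.subset hU'.subset
    have h1 : hfin.toFinset ⊂ U := by
      rw [← Finset.coe_ssubset]; simpa using hU'
    have h2 := hmin (y := hfin.toFinset) (by
      simp only [Finset.mem_filter, Finset.mem_powerset]
      exact ⟨h1.subset.trans hU.1, by simpa using hill⟩) h1.subset
    exact absurd h2 (not_le_of_gt h1)
  · have hmem : ∀ i : Fin (N + 3), dir (some (Sum.inl i)) ∈ U ∧ ∃ ε : ℝ, 0 < ε ∧
        base m N (Sum.inl i) + ε • dir (some (Sum.inl i)) ∈ interior K := by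
      intro i
      obtain ⟨u, hu, ε, hε, _, h⟩ := hU.2.2 _ (hfront (Sum.inl i))
      have hu0 := hU.1 hu
      simp only [hU0, Finset.mem_image, Finset.mem_univ, true_and] at hu0
      obtain ⟨o, rfl⟩ := hu0
      by_cases ho : o = some (Sum.inl i)
      · subst ho; exact ⟨hu, ε, hε, h⟩
      · exact absurd h (hpriv i o ho ε hε)
    have hinj : Function.Injective fun i : Fin (N + 3) => dir (some (Sum.inl i)) := by
      intro i j hij
      by_contra hne
      obtain ⟨_, ε, hε, h⟩ := hmem i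
      have hij' : dir (some (Sum.inl i)) = dir (some (Sum.inl j)) := hij
      rw [hij'] at h
      have hne' : (some (Sum.inl j) : Option (Fin (N + 3) ⊕ Fin m)) ≠ some (Sum.inl i) :=
        fun h' => hne (Sum.inl_injective (Option.some_injective _ h')).symm
      exact hpriv i _ hne' ε hε h
    have := Finset.card_le_card_of_injOn (s := Finset.univ) (t := U)
      (fun i : Fin (N + 3) => dir (some (Sum.inl i))) (fun i _ => (hmem i).1) hinj.injOn
    simp at this
    omega

end Pool.Agent.Results.MP_26bcd4_gt.OuterUnbounded
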